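import Pool.Agent.H15.KI.TargetsA

/-!
# Milnor K-groups commute with directed colimits (row COL of the board kewi_modules)
-/

set_option autoImplicit false

namespace Pool.Agent.H75.KI

open CategoryTheory Function
open Pool.Agent.H15.KS (MK sy mkMap mkMap_sy ap MK_ext)
open Pool.Agent.H62.MK (MilnorK sym)
open Pool.Agent.H15.KI (IsCol T_COL)

universe u

noncomputable section

/-- The value of `mkMap`. -/
theorem ap_mkMap {R S : Type u} [CommRing R] [CommRing S] (f : R →+* S) (n : ℕ)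
    (w : MilnorK R n) : ap (mkMap f n) w = Pool.Agent.H62.MK.map f n w := by
  have h : mkMap f n = AddCommGrpCat.ofHom (Pool.Agent.H62.MK.map f n) :=
    MK_ext (fun a => by
      rw [mkMap_sy]
      exact (Pool.Agent.H62.MK.map_sym f a).symm)
  rw [h]
  rfl

/-- Composition of the maps on Milnor K-groups. -/
theorem map_map {R S T : Type u} [CommRing R] [CommRing S] [CommRing T] (f : R →+* S)
    (g : S →+* T) (n : ℕ) (w : MilnorK R n) :
    Pool.Agent.H62.MK.map g n (Pool.Agent.H62.MK.map f n w) =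
      Pool.Agent.H62.MK.map (g.comp f) n w := by
  have h : (Pool.Agent.H62.MK.map g n).comp (Pool.Agent.H62.MK.map f n) =
      Pool.Agent.H62.MK.map (g.comp f) n := Pool.Agent.H62.MK.hom_ext (fun a => by
    rw [AddMonoidHom.comp_apply, Pool.Agent.H62.MK.map_sym, Pool.Agent.H62.MK.map_sym,
      Pool.Agent.H62.MK.map_sym]
    rfl)
  exact congrArg (fun F => F w) h

variable {J : Type u} [Preorder J] {R : J → Type u} [∀ j, CommRing (R j)] {S : Type u}
  [CommRing S] {r : ∀ i j, i ≤ j → R i →+* R j} {φ : ∀ j, R j →+* S}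

/-- The map on units. -/
abbrev U {A B : Type u} [CommRing A] [CommRing B] (f : A →+* B) : Aˣ →* Bˣ :=
  Units.map f.toMonoidHom

theorem U_comp {A B C : Type u} [CommRing A] [CommRing B] [CommRing C] (f : A →+* B)
    (g : B →+* C) (x : Aˣ) : U g (U f x) = U (g.comp f) x := by
  ext
  rfl

theorem exists_ge (hC : IsCol R S r φ) (s : Finset J) : ∃ k, ∀ j ∈ s, j ≤ k := by
  classical
  induction s using Finset.induction_on with
  | empty =>
    obtain ⟨k⟩ := hC.ne
    exact ⟨k, by simp⟩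
  | insert a s _ ih =>
    obtain ⟨k, hk⟩ := ih
    obtain ⟨l, hl, hl'⟩ := hC.dir a k
    refine ⟨l, fun j hj => ?_⟩
    rcases Finset.mem_insert.1 hj with rfl | hj
    · exact hl
    · exact (hk j hj).trans hl'

theorem exists_ge_fin (hC : IsCol R S r φ) {ι : Type} [Fintype ι] (j : ι → J) :
    ∃ k, ∀ i, j i ≤ k := by
  classical
  obtain ⟨k, hk⟩ := exists_ge hC (Finset.univ.image j)
  exact ⟨k, fun i => hk _ (Finset.mem_image_of_mem j (Finset.mem_univ i))⟩

theorem φ_r (hC : IsCol R S r φ) {i j : J} (h : i ≤ j) (x : R i) : φ j (r i j h x) = φ i x :=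
  congrArg (fun F : R i →+* S => F x) (hC.map i j h)

theorem r_r (hC : IsCol R S r φ) {i j k : J} (h : i ≤ j) (h' : j ≤ k) (x : R i) :
    r j k h' (r i j h x) = r i k (h.trans h') x :=
  congrArg (fun F : R i →+* R k => F x) (hC.comp i j k h h')

/-- Every unit of the colimit comes from a unit at some stage. -/
theorem unit_lift (hC : IsCol R S r φ) (a : Sˣ) : ∃ (j : J) (b : (R j)ˣ), U (φ j) b = a := by
  obtain ⟨i, x, hx⟩ := hC.surj (a : S)
  obtain ⟨i', y, hy⟩ := hC.surj ((a⁻¹ : Sˣ) : S)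
  obtain ⟨k, hk, hk'⟩ := hC.dir i i'
  have h0 : φ k (r i k hk x * r i' k hk' y - 1) = 0 := by
    rw [map_sub, map_mul, φ_r hC, φ_r hC, hx, hy, map_one, Units.mul_inv, sub_self]
  obtain ⟨l, hl, hl0⟩ := hC.inj k _ h0
  rw [map_sub, map_mul, map_one, sub_eq_zero] at hl0
  refine ⟨l, Units.mkOfMulEqOne _ _ hl0, ?_⟩
  ext
  show φ l (r k l hl (r i k hk x)) = a
  rw [φ_r hC, φ_r hC, hx]

/-- Units which agree in the colimit agree at some later stage. -/
theorem unit_eq (hC : IsCol R S r φ) {j : J} (b c : (R j)ˣ) (h : U (φ j) b = U (φ j) c) :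
    ∃ (k : J) (hk : j ≤ k), U (r j k hk) b = U (r j k hk) c := by
  have h0 : φ j ((b : R j) - (c : R j)) = 0 := by
    rw [map_sub, sub_eq_zero]
    exact congrArg Units.val h
  obtain ⟨k, hk, hk0⟩ := hC.inj j _ h0
  refine ⟨k, hk, ?_⟩
  ext
  rw [map_sub, sub_eq_zero] at hk0
  exact hk0

theorem fin_lift (hC : IsCol R S r φ) {ι : Type} [Fintype ι] (a : ι → Sˣ) :
    ∃ (j : J) (b : ι → (R j)ˣ), ∀ i, U (φ j) (b i) = a i := by
  choose j b hb using fun i => unit_lift hC (a i)
  obtain ⟨k, hk⟩ := exists_ge_fin hC j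
  refine ⟨k, fun i => U (r (j i) k (hk i)) (b i), fun i => ?_⟩
  rw [U_comp, hC.map, hb]

theorem fin_eq (hC : IsCol R S r φ) {ι : Type} [Fintype ι] {j : J} (b c : ι → (R j)ˣ)
    (h : ∀ i, U (φ j) (b i) = U (φ j) (c i)) :
    ∃ (k : J) (hk : j ≤ k), ∀ i, U (r j k hk) (b i) = U (r j k hk) (c i) := by
  choose k hk hkk using fun i => unit_eq hC (b i) (c i) (h i)
  obtain ⟨l, hl⟩ := exists_ge_fin hC k
  obtain ⟨m, hm, hm'⟩ := hC.dir l j
  refine ⟨m, hm', fun i => ?_⟩
  have h1 := congrArg (U (r (k i) m ((hl i).trans hm))) (hkk i)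
  rw [U_comp, U_comp, hC.comp] at h1
  exact h1

/-- The families which are eventually zero. -/
def ev (hC : IsCol R S r φ) (n : ℕ) : AddSubgroup (∀ j, MilnorK (R j) n) where
  carrier := {s | ∃ j, ∀ k, j ≤ k → s k = 0}
  zero_mem' := by
    obtain ⟨k⟩ := hC.ne
    exact ⟨k, fun _ _ => rfl⟩
  add_mem' := by
    rintro a b ⟨i, hi⟩ ⟨j, hj⟩
    obtain ⟨k, hk, hk'⟩ := hC.dir i j
    refine ⟨k, fun l hl => ?_⟩
    show a l + b l = 0
    rw [hi l (hk.trans hl), hj l (hk'.trans hl), add_zero]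
  neg_mem' := by
    rintro a ⟨i, hi⟩
    refine ⟨i, fun l hl => ?_⟩
    show - a l = 0
    rw [hi l hl, neg_zero]

/-- The group of germs at infinity of families. -/
abbrev G (hC : IsCol R S r φ) (n : ℕ) : Type u := (∀ j, MilnorK (R j) n) ⧸ ev hC n

open Classical in
/-- The family of the images of `w`. -/
def fam (r : ∀ i j, i ≤ j → R i →+* R j) (n : ℕ) (j : J) (w : MilnorK (R j) n) :
    ∀ k, MilnorK (R k) n :=
  fun k => if h : j ≤ k then Pool.Agent.H62.MK.map (r j k h) n w else 0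

theorem fam_of_le (n : ℕ) {j k : J} (h : j ≤ k) (w : MilnorK (R j) n) :
    fam r n j w k = Pool.Agent.H62.MK.map (r j k h) n w := dif_pos h

/-- The map from a stage. -/
def ofG (hC : IsCol R S r φ) (n : ℕ) (j : J) : MilnorK (R j) n →+ G hC n :=
  (QuotientAddGroup.mk' (ev hC n)).comp
    { toFun := fam r n j
      map_zero' := by
        funext k
        unfold fam
        split_ifs
        · exact map_zero _
        · rfl
      map_add' := by
        intro x y
        funext k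
        show _ = fam r n j x k + fam r n j y k
        unfold fam
        split_ifs
        · exact map_add _ _ _
        · rw [add_zero] }

theorem ofG_eq_iff (hC : IsCol R S r φ) (n : ℕ) {i j : J} (x : MilnorK (R i) n)
    (y : MilnorK (R j) n) {k : J} (hi : i ≤ k) (hj : j ≤ k)
    (h : Pool.Agent.H62.MK.map (r i k hi) n x = Pool.Agent.H62.MK.map (r j k hj) n y) :
    ofG hC n i x = ofG hC n j y := by
  refine (QuotientAddGroup.eq).2 ⟨k, fun l hl => ?_⟩
  show - fam r n i x l + fam r n j y l = 0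
  rw [fam_of_le n (hi.trans hl), fam_of_le n (hj.trans hl), ← hC.comp i k l hi hl,
    ← hC.comp j k l hj hl, ← map_map, ← map_map, h, neg_add_cancel]

theorem ofG_zero (hC : IsCol R S r φ) (n : ℕ) {j : J} (x : MilnorK (R j) n)
    (h : ofG hC n j x = 0) : ∃ (k : J) (hk : j ≤ k), Pool.Agent.H62.MK.map (r j k hk) n x = 0 := by
  obtain ⟨i, hi⟩ := (QuotientAddGroup.eq_zero_iff _).1 h
  obtain ⟨k, hk, hk'⟩ := hC.dir i j
  exact ⟨k, hk', by rw [← fam_of_le n hk']; exact hi k hk⟩

/-- Two lifts of the same tuple give the same element. -/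
theorem ofG_sym (hC : IsCol R S r φ) (n : ℕ) {i j : J} (b : Fin n → (R i)ˣ)
    (c : Fin n → (R j)ˣ) (h : ∀ m, U (φ i) (b m) = U (φ j) (c m)) :
    ofG hC n i (sym b) = ofG hC n j (sym c) := by
  obtain ⟨k, hi, hj⟩ := hC.dir i j
  obtain ⟨l, hl, hll⟩ := fin_eq hC (fun m => U (r i k hi) (b m)) (fun m => U (r j k hj) (c m))
    (fun m => by rw [U_comp, U_comp, hC.map, hC.map, h])
  refine ofG_eq_iff hC n _ _ (hi.trans hl) (hj.trans hl) ?_
  rw [Pool.Agent.H62.MK.map_sym, Pool.Agent.H62.MK.map_sym]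
  congr 1
  funext m
  have h1 := hll m
  rw [U_comp, U_comp, hC.comp, hC.comp] at h1
  exact h1

/-- The value on a tuple of units of the colimit. -/
def val (hC : IsCol R S r φ) (n : ℕ) (a : Fin n → Sˣ) : G hC n :=
  ofG hC n (fin_lift hC a).choose (sym (fin_lift hC a).choose_spec.choose)

theorem val_eq (hC : IsCol R S r φ) (n : ℕ) {a : Fin n → Sˣ} {j : J} (b : Fin n → (R j)ˣ)
    (h : ∀ m, U (φ j) (b m) = a m) : val hC n a = ofG hC n j (sym b) := by
  refine ofG_sym hC n _ _ (fun m => ?_)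
  rw [h m]
  exact (fin_lift hC a).choose_spec.choose_spec m

theorem U_update {A B : Type u} [CommRing A] [CommRing B] (f : A →+* B) {n : ℕ}
    (b : Fin n → Aˣ) (i m : Fin n) (x : Aˣ) :
    U f (update b i x m) = update (fun m => U f (b m)) i (U f x) m := by
  by_cases h : m = i
  · subst h
    simp
  · rw [update_of_ne h, update_of_ne h]

theorem val_mul (hC : IsCol R S r φ) (n : ℕ) (a : Fin n → Sˣ) (i : Fin n) (x y : Sˣ) :
    val hC n (update a i (x * y)) = val hC n (update a i x) + val hC n (update a i y) := by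
  obtain ⟨j, b, hb⟩ := fin_lift hC (ι := Fin n ⊕ Bool)
    (Sum.elim a (fun t => if t then x else y))
  have h1 : ∀ m, U (φ j) (b (Sum.inl m)) = a m := fun m => hb (Sum.inl m)
  have hx : U (φ j) (b (Sum.inr true)) = x := hb (Sum.inr true)
  have hy : U (φ j) (b (Sum.inr false)) = y := hb (Sum.inr false)
  have h2 : ∀ z : (R j)ˣ, ∀ z' : Sˣ, U (φ j) z = z' →
      ∀ m, U (φ j) (update (fun m => b (Sum.inl m)) i z m) = update a i z' m := by
    intro z z' hz m
    rw [U_update, hz]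
    congr 1
    funext m
    exact h1 m
  rw [val_eq hC n (update (fun m => b (Sum.inl m)) i (b (Sum.inr true) * b (Sum.inr false)))
      (h2 _ _ (by rw [map_mul, hx, hy])),
    val_eq hC n (update (fun m => b (Sum.inl m)) i (b (Sum.inr true))) (h2 _ _ hx),
    val_eq hC n (update (fun m => b (Sum.inl m)) i (b (Sum.inr false))) (h2 _ _ hy),
    Pool.Agent.H62.MK.sym_update_mul, map_add]

theorem val_steinberg (hC : IsCol R S r φ) (n : ℕ) (a : Fin n → Sˣ) (i : ℕ) (hi : i + 1 < n)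
    (h : (a ⟨i, by omega⟩ : S) + (a ⟨i + 1, hi⟩ : S) = 1) : val hC n a = 0 := by
  obtain ⟨j, b, hb⟩ := fin_lift hC a
  have h0 : φ j ((b ⟨i, by omega⟩ : R j) + (b ⟨i + 1, hi⟩ : R j) - 1) = 0 := by
    have h1 : φ j (b ⟨i, by omega⟩ : R j) = a ⟨i, by omega⟩ := congrArg Units.val (hb _)
    have h2 : φ j (b ⟨i + 1, hi⟩ : R j) = a ⟨i + 1, hi⟩ := congrArg Units.val (hb _)
    rw [map_sub, map_add, h1, h2, h, map_one, sub_self]
  obtain ⟨k, hk, hk0⟩ := hC.inj j _ h0
  rw [val_eq hC n (fun m => U (r j k hk) (b m)) (fun m => by rw [U_comp, hC.map, hb]),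
    Pool.Agent.H62.MK.sym_steinberg _ i hi, map_zero]
  rw [map_sub, map_add, map_one, sub_eq_zero] at hk0
  exact hk0

/-- The map from the Milnor K-group of the colimit. -/
def toG (hC : IsCol R S r φ) (n : ℕ) : MilnorK S n →+ G hC n :=
  Pool.Agent.H62.MK.lift (val hC n) (val_mul hC n) (val_steinberg hC n)

theorem toG_map (hC : IsCol R S r φ) (n : ℕ) (j : J) (w : MilnorK (R j) n) :
    toG hC n (Pool.Agent.H62.MK.map (φ j) n w) = ofG hC n j w := by
  have h : (toG hC n).comp (Pool.Agent.H62.MK.map (φ j) n) = ofG hC n j :=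
    Pool.Agent.H62.MK.hom_ext (fun a => by
      rw [AddMonoidHom.comp_apply, Pool.Agent.H62.MK.map_sym]
      unfold toG
      rw [Pool.Agent.H62.MK.lift_sym]
      exact val_eq hC n a (fun m => rfl))
  exact congrArg (fun F => F w) h

theorem surj_col (hC : IsCol R S r φ) (n : ℕ) (z : MilnorK S n) :
    ∃ (j : J) (w : MilnorK (R j) n), Pool.Agent.H62.MK.map (φ j) n w = z := by
  refine Pool.Agent.H62.MK.MilnorK.induction
    (p := fun z => ∃ (j : J) (w : MilnorK (R j) n), Pool.Agent.H62.MK.map (φ j) n w = z)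
    z ?_ ?_ ?_ ?_
  · obtain ⟨j⟩ := hC.ne
    exact ⟨j, 0, map_zero _⟩
  · intro a
    obtain ⟨j, b, hb⟩ := fin_lift hC a
    refine ⟨j, sym b, ?_⟩
    rw [Pool.Agent.H62.MK.map_sym]
    congr 1
    funext m
    exact hb m
  · rintro x ⟨j, w, hw⟩
    exact ⟨j, -w, by rw [map_neg, hw]⟩
  · rintro x y ⟨i, v, hv⟩ ⟨j, w, hw⟩
    obtain ⟨k, hi, hj⟩ := hC.dir i j
    refine ⟨k, Pool.Agent.H62.MK.map (r i k hi) n v + Pool.Agent.H62.MK.map (r j k hj) n w, ?_⟩
    rw [map_add, map_map, map_map, hC.map, hC.map, hv, hw]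

theorem pf_COL : T_COL.{u} := by
  intro J _ R _ S _ r φ hC n
  refine ⟨fun z => ?_, fun j w hw => ?_⟩
  · obtain ⟨j, w, hw⟩ := surj_col hC n z
    exact ⟨j, w, by rw [ap_mkMap]; exact hw⟩
  · have hw' : Pool.Agent.H62.MK.map (φ j) n w = 0 := by
      rw [← ap_mkMap]
      exact hw
    have h1 : ofG hC n j w = 0 := by rw [← toG_map, hw', map_zero]
    obtain ⟨k, hk, hk0⟩ := ofG_zero hC n w h1
    exact ⟨k, hk, by rw [ap_mkMap]; exact hk0⟩

end

end Pool.Agent.H75.KI
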